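import Pool.Agent.R490.GPi

set_option autoImplicit false

/-!
# Almost all `n` are `a + b` with `a b - 1` (and `a b + 1`) an almost prime, already for very small `a`
-/

namespace Pool.Agent.Results.MP_f8fff1_nt.SmallestSplittings

open Finset Filter

open Classical in
/-- the number of the integers `1 ≤ a ≤ T` for which there is a positive integer `b` with `a + b = n` such
that `N = a b + s ≥ 2` has at most `k` prime factors (counted with multiplicity), all of them at least `w` -/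
noncomputable def splittings (s : ℤ) (n k : ℕ) (w T : ℝ) : ℕ :=
  ((Icc 1 ⌊T⌋₊).filter (fun a : ℕ => ∃ b N : ℕ, 1 ≤ b ∧ a + b = n ∧ (N : ℤ) = a * b + s ∧ 2 ≤ N ∧
    N.primeFactorsList.length ≤ k ∧ ∀ q : ℕ, q.Prime → q ∣ N → w ≤ q)).card

lemma cnt_le (s : ℤ) (hs : s = 1 ∨ s = -1) (n k : ℕ) (w T : ℝ) :
    R490.LGb.cnt R490.GPi.Am (R490.GPi.Bm s) k ⌊T⌋₊ n w ≤ splittings s n k w T := by
  classical
  unfold R490.LGb.cnt splittings
  apply card_le_card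
  intro j hj
  rw [mem_filter] at hj ⊢
  obtain ⟨h1, h2, h3, h4⟩ := hj
  obtain ⟨N, hN⟩ : ∃ N : ℕ, (N : ℤ) = (R490.GPi.Am j : ℤ) * n + R490.GPi.Bm s j :=
    ⟨((R490.GPi.Am j : ℤ) * n + R490.GPi.Bm s j).toNat, Int.toNat_of_nonneg (by linarith)⟩
  rw [← hN] at h2 h3 h4
  rw [Int.toNat_natCast] at h3
  have e : (N : ℤ) = (j : ℤ) * ((n : ℤ) - j) + s := by
    rw [hN]
    unfold R490.GPi.Am R490.GPi.Bm
    ring
  have hj1 : 1 ≤ j := (mem_Icc.1 h1).1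
  have hlt : j < n := by
    by_contra hc
    push Not at hc
    have c1 : (n : ℤ) - j ≤ 0 := by
      have : (n : ℤ) ≤ j := by exact_mod_cast hc
      linarith
    have c2 : (j : ℤ) * ((n : ℤ) - j) ≤ 0 := mul_nonpos_of_nonneg_of_nonpos (by positivity) c1
    rcases hs with h | h <;> rw [h] at e <;> linarith
  obtain ⟨b, hb⟩ : ∃ b : ℕ, n = j + b := ⟨n - j, by omega⟩
  refine ⟨h1, b, N, by omega, hb.symm, ?_, by exact_mod_cast h2, h3, ?_⟩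
  · rw [e, hb]
    push_cast
    ring
  · intro q hq hd
    exact h4 q hq (by exact_mod_cast hd)

/-- **For almost all `n`, many of the smallest `a` make `a b - 1`, and many make `a b + 1`, an almost prime,
where `a + b = n`.** -/
theorem result (θ ε : ℝ) (k : ℕ) (hθ : 0 < θ) (hθ1 : θ ≤ 1) (hk : 1 / 8 + 25 / (12 * θ) < k) (hε : 0 < ε) :
    ∃ κ Λ : ℝ, 0 < κ ∧ 0 < Λ ∧ ∀ l : ℝ, Λ ≤ l → ∃ X₀ : ℕ, ∀ X : ℕ, X₀ ≤ X → ∀ Z L : ℕ,
      (X : ℝ) ^ θ ≤ L → Z + L ≤ X →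
      (({n : ℕ | n ∈ Ioc Z (Z + L) ∧
        ((splittings (-1) n k ((X : ℝ) ^ (θ / 10)) (l * Real.log X) : ℝ) < κ * l ∨
         (splittings 1 n k ((X : ℝ) ^ (θ / 10)) (l * Real.log X) : ℝ) < κ * l)} : Set ℕ).ncard : ℝ) ≤ ε * L := by
  classical
  obtain ⟨κ1, Λ1, hκ1, hΛ1, g1⟩ := R490.GPi.mainM (-1) (Or.inr rfl) θ (ε / 2) k hθ hθ1 hk (half_pos hε)
  obtain ⟨κ2, Λ2, hκ2, hΛ2, g2⟩ := R490.GPi.mainM 1 (Or.inl rfl) θ (ε / 2) k hθ hθ1 hk (half_pos hε)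
  refine ⟨min κ1 κ2, max Λ1 Λ2, lt_min hκ1 hκ2, lt_max_of_lt_left hΛ1, ?_⟩
  intro l hl
  have hl1 : Λ1 ≤ l := (le_max_left _ _).trans hl
  have hl2 : Λ2 ≤ l := (le_max_right _ _).trans hl
  have hl0 : 0 < l := lt_of_lt_of_le hΛ1 hl1
  obtain ⟨X₀, hX₀⟩ := eventually_atTop.1 ((g1 l hl1).and (g2 l hl2))
  refine ⟨X₀, ?_⟩
  intro X hX Z L hL hZ
  have b1 := (hX₀ X hX).1 Z L hL hZ
  have b2 := (hX₀ X hX).2 Z L hL hZ
  obtain ⟨E1, hE1⟩ : ∃ E1, E1 = ((Ioc Z (Z + L)).filter (fun n => R490.GPi.AdmAll n ∧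
        (R490.LGb.cnt R490.GPi.Am (R490.GPi.Bm (-1)) k ⌊l * Real.log X⌋₊ n
          ((X : ℝ) ^ (θ / 10)) : ℝ) < κ1 * l)) := ⟨_, rfl⟩
  obtain ⟨E2, hE2⟩ : ∃ E2, E2 = ((Ioc Z (Z + L)).filter (fun n => R490.GPi.AdmAll n ∧
        (R490.LGb.cnt R490.GPi.Am (R490.GPi.Bm 1) k ⌊l * Real.log X⌋₊ n
          ((X : ℝ) ^ (θ / 10)) : ℝ) < κ2 * l)) := ⟨_, rfl⟩
  rw [← hE1] at b1
  rw [← hE2] at b2
  have hk1 : min κ1 κ2 * l ≤ κ1 * l := mul_le_mul_of_nonneg_right (min_le_left _ _) hl0.le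
  have hk2 : min κ1 κ2 * l ≤ κ2 * l := mul_le_mul_of_nonneg_right (min_le_right _ _) hl0.le
  have hsub : ({n : ℕ | n ∈ Ioc Z (Z + L) ∧
        ((splittings (-1) n k ((X : ℝ) ^ (θ / 10)) (l * Real.log X) : ℝ) < min κ1 κ2 * l ∨
         (splittings 1 n k ((X : ℝ) ^ (θ / 10)) (l * Real.log X) : ℝ) < min κ1 κ2 * l)} : Set ℕ) ⊆
      ((E1 ∪ E2 : Finset ℕ) : Set ℕ) := by
    intro n hn
    obtain ⟨a1, a2⟩ := hn
    rw [mem_coe, mem_union]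
    rcases a2 with a2 | a2
    · left
      rw [hE1, mem_filter]
      refine ⟨a1, Nat.zero_le _, ?_⟩
      have a4 : (R490.LGb.cnt R490.GPi.Am (R490.GPi.Bm (-1)) k ⌊l * Real.log X⌋₊ n ((X : ℝ) ^ (θ / 10)) : ℝ) ≤
          splittings (-1) n k ((X : ℝ) ^ (θ / 10)) (l * Real.log X) := by
        exact_mod_cast cnt_le (-1) (Or.inr rfl) n k ((X : ℝ) ^ (θ / 10)) (l * Real.log X)
      linarith
    · right
      rw [hE2, mem_filter]
      refine ⟨a1, Nat.zero_le _, ?_⟩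
      have a4 : (R490.LGb.cnt R490.GPi.Am (R490.GPi.Bm 1) k ⌊l * Real.log X⌋₊ n ((X : ℝ) ^ (θ / 10)) : ℝ) ≤
          splittings 1 n k ((X : ℝ) ^ (θ / 10)) (l * Real.log X) := by
        exact_mod_cast cnt_le 1 (Or.inl rfl) n k ((X : ℝ) ^ (θ / 10)) (l * Real.log X)
      linarith
  have h5 := Set.ncard_le_ncard hsub (Finset.finite_toSet _)
  rw [Set.ncard_coe_finset] at h5
  have h6 : ((E1 ∪ E2).card : ℝ) ≤ E1.card + E2.card := by exact_mod_cast card_union_le E1 E2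
  have h7 : (({n : ℕ | n ∈ Ioc Z (Z + L) ∧
        ((splittings (-1) n k ((X : ℝ) ^ (θ / 10)) (l * Real.log X) : ℝ) < min κ1 κ2 * l ∨
         (splittings 1 n k ((X : ℝ) ^ (θ / 10)) (l * Real.log X) : ℝ) < min κ1 κ2 * l)} : Set ℕ).ncard : ℝ) ≤
      (E1 ∪ E2).card := by exact_mod_cast h5
  linarith

end Pool.Agent.Results.MP_f8fff1_nt.SmallestSplittings
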